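import Pool.Agent.H59.KA.Stmts

/-!
# Project KA, module QIN: integration of the differential inequality

Pure real analysis.  With `t* = 1 / (64 Q)` the function
`Γ t = 32 √Q exp (12 √Q (√t* - √t))` satisfies the one step inequality with
`η = 5 √(Q t)` for all small steps.
-/

set_option autoImplicit false

open Set Filter Topology

namespace Pool.Agent.H75.KA

open Pool.Agent.H59.KA

/-- algebra of one step -/
theorem qin_alg (q x s w C : ℝ) (hq : 1 ≤ q) (hx0 : 0 ≤ x) (hx : x ≤ 1 / 10)
    (hs : s = x / (5 * q ^ 2)) (hCw : C * w ≤ 1 / 5) :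
    ((1 + 5 / 4 * x) ^ 2 + s * (8 * q ^ 2 + 3) * (1 + C * w)) + C * s * w ≤
      (1 - s) * (1 + 57 / 10 * x) := by
  have hq2 : (1 : ℝ) ≤ q ^ 2 := by nlinarith
  have hqpos : (0 : ℝ) < q ^ 2 := by linarith
  have hsq : s * q ^ 2 = x / 5 := by
    rw [hs]; field_simp
  have hs0 : 0 ≤ s := by rw [hs]; positivity
  have hsx : s ≤ x / 5 := by nlinarith
  have h1 : s * (8 * q ^ 2 + 3) = 8 / 5 * x + 3 * s := by
    have : s * (8 * q ^ 2 + 3) = 8 * (s * q ^ 2) + 3 * s := by ring
    rw [this, hsq]; ring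
  have h2 : s * (8 * q ^ 2 + 3) * (1 + C * w) ≤ (8 / 5 * x + 3 * s) * (6 / 5) := by
    rw [h1]
    apply mul_le_mul_of_nonneg_left
    · linarith
    · positivity
  have h3 : C * s * w ≤ s * (1 / 5) := by
    have : C * s * w = s * (C * w) := by ring
    rw [this]
    exact mul_le_mul_of_nonneg_left hCw hs0
  have h4 : x * s ≤ x * (x / 5) := mul_le_mul_of_nonneg_left hsx hx0
  have h5 : x * x ≤ x * (1 / 10) := mul_le_mul_of_nonneg_left hx hx0
  nlinarith

/-- the gain of the exponential in one step -/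
theorem qin_gain (q h t τ τ' x : ℝ) (hqpos : 0 < q) (hh : 0 < h) (hτpos : 0 < τ)
    (hτ'pos : 0 < τ') (hτsq : τ ^ 2 = t) (hτ'sq : τ' ^ 2 = t + h) (hht : h ≤ t / 5)
    (hx : x = h * q / τ) : 57 / 10 * x ≤ 12 * q * (τ' - τ) := by
  have h1 : τ' ≤ 11 / 10 * τ := by
    by_contra hcon
    push Not at hcon
    have h2 : (11 / 10 * τ) ^ 2 < τ' ^ 2 := by
      apply pow_lt_pow_left₀ hcon (by positivity) (by norm_num)
    have h3 : (11 / 10 * τ) ^ 2 = 121 / 100 * t := by rw [← hτsq]; ring
    have h4 : 0 < τ ^ 2 := by positivity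
    rw [hτ'sq, h3] at h2
    linarith
  have h2 : h = (τ' - τ) * (τ' + τ) := by
    have : (τ' - τ) * (τ' + τ) = τ' ^ 2 - τ ^ 2 := by ring
    rw [this, hτsq, hτ'sq]; ring
  have h3 : 0 < τ' - τ := by
    by_contra hcon
    push Not at hcon
    have : (τ' - τ) * (τ' + τ) ≤ 0 := mul_nonpos_of_nonpos_of_nonneg hcon (by linarith)
    linarith
  have h4 : h ≤ (τ' - τ) * (21 / 10 * τ) := by
    have : (τ' - τ) * (τ' + τ) ≤ (τ' - τ) * (21 / 10 * τ) :=
      mul_le_mul_of_nonneg_left (by linarith) h3.le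
    linarith
  have h5 : x ≤ 21 / 10 * (q * (τ' - τ)) := by
    rw [hx, div_le_iff₀ hτpos]
    have := mul_le_mul_of_nonneg_right h4 hqpos.le
    linarith
  have h6 : 0 ≤ q * (τ' - τ) := by positivity
  linarith

set_option maxHeartbeats 4000000 in
theorem qin_thm : QINStmt := by
  intro P t0 Q C ht0 ht01 hQ hC hS0 hST hmono
  obtain ⟨q, hqdef⟩ : ∃ q : ℝ, q = Real.sqrt Q := ⟨_, rfl⟩
  have hq0 : 0 ≤ q := by rw [hqdef]; exact Real.sqrt_nonneg _
  have hqQ : q ^ 2 = Q := by rw [hqdef]; exact Real.sq_sqrt (by linarith)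
  have hq : 1 ≤ q := by nlinarith
  have hqpos : 0 < q := by linarith
  rw [← hqdef]
  -- the large time
  set ts : ℝ := 1 / (64 * Q) with hts
  have hQpos : 0 < Q := by linarith
  have htspos : 0 < ts := by positivity
  have hts1 : ts ≤ 1 := by
    rw [hts, div_le_one (by positivity)]; linarith
  have hsts : Real.sqrt ts = 1 / (8 * q) := by
    have : ts = (1 / (8 * q)) ^ 2 := by
      rw [hts, div_pow, mul_pow, hqQ]; norm_num
    rw [this, Real.sqrt_sq (by positivity)]
  rcases le_or_gt ts t0 with hcase | hcase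
  · -- the direct case
    refine hmono t0 _ _ (hS0 t0 ht0 ht01) ?_
    have h1 : 1 / (8 * q) ≤ Real.sqrt t0 := by
      rw [← hsts]; exact Real.sqrt_le_sqrt hcase
    have h2 : 4 / Real.sqrt t0 ≤ 4 / (1 / (8 * q)) := by
      apply div_le_div_of_nonneg_left (by norm_num) (by positivity) h1
    have h3 : 4 / (1 / (8 * q)) = 32 * q := by field_simp; norm_num
    rw [h3] at h2
    linarith
  -- the function
  set G : ℝ → ℝ := fun t => 32 * q * Real.exp (12 * q * (Real.sqrt ts - Real.sqrt t)) with hG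
  have hPts : P ts (G ts) := by
    have h1 := hS0 ts htspos hts1
    have h2 : G ts = 4 / Real.sqrt ts := by
      simp only [hG, sub_self, mul_zero, Real.exp_zero, mul_one]
      rw [hsts]; field_simp; norm_num
    rw [h2]; exact h1
  have hGpos : ∀ t, t ≤ ts → 1 ≤ G t := by
    intro t ht
    simp only [hG]
    have h1 : 1 ≤ Real.exp (12 * q * (Real.sqrt ts - Real.sqrt t)) := by
      apply Real.one_le_exp
      have := Real.sqrt_le_sqrt ht
      have h2 : 0 ≤ Real.sqrt ts - Real.sqrt t := by linarith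
      positivity
    nlinarith
  set m0 : ℝ := Real.sqrt t0 with hm0
  have hm0pos : 0 < m0 := Real.sqrt_pos.mpr ht0
  set h0 : ℝ := min (t0 / 5) (min (m0 / (10 * q)) (q * m0 / (5 * C ^ 2))) with hh0
  have hh0pos : 0 < h0 := by
    rw [hh0]
    refine lt_min (by positivity) (lt_min (by positivity) (by positivity))
  -- the step
  have hstep : ∀ h t : ℝ, 0 < h → h ≤ h0 → t0 ≤ t → t + h ≤ ts → P (t + h) (G (t + h)) →
      P t (G t) := by
    intro h t hh hhh ht htts hP
    have hha : h ≤ t0 / 5 := le_trans hhh (min_le_left _ _)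
    have hhb : h ≤ m0 / (10 * q) := le_trans hhh (le_trans (min_le_right _ _) (min_le_left _ _))
    have hhc : h ≤ q * m0 / (5 * C ^ 2) :=
      le_trans hhh (le_trans (min_le_right _ _) (min_le_right _ _))
    have htpos : 0 < t := by linarith
    set τ : ℝ := Real.sqrt t with hτ
    have hτpos : 0 < τ := Real.sqrt_pos.mpr htpos
    have hτsq : τ ^ 2 = t := Real.sq_sqrt htpos.le
    have hmτ : m0 ≤ τ := Real.sqrt_le_sqrt ht
    set τ' : ℝ := Real.sqrt (t + h) with hτ'
    have hτ'pos : 0 < τ' := Real.sqrt_pos.mpr (by linarith)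
    have hτ'sq : τ' ^ 2 = t + h := Real.sq_sqrt (by linarith)
    set x : ℝ := h * q / τ with hx
    have hx0 : 0 < x := by positivity
    have hx1 : x ≤ 1 / 10 := by
      rw [hx, div_le_iff₀ hτpos]
      have : h * (10 * q) ≤ m0 := by rwa [le_div_iff₀ (by positivity)] at hhb
      nlinarith
    set s : ℝ := h / (5 * q * τ) with hs
    have hspos : 0 < s := by positivity
    have hsx : s = x / (5 * q ^ 2) := by
      rw [hs, hx]; field_simp
    have hs25 : s ≤ (1 / (5 * C)) ^ 2 := by
      rw [hs, div_le_iff₀ (by positivity)]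
      have h1 : h * (5 * C ^ 2) ≤ q * m0 := by rwa [le_div_iff₀ (by positivity)] at hhc
      have h2 : q * m0 ≤ q * τ := mul_le_mul_of_nonneg_left hmτ hq0
      have h3 : (1 / (5 * C)) ^ 2 * (5 * q * τ) = q * τ / (5 * C ^ 2) := by
        field_simp
      rw [h3, le_div_iff₀ (by positivity)]
      linarith
    have hw : Real.sqrt s ≤ 1 / (5 * C) := by
      rw [← Real.sqrt_sq (show (0 : ℝ) ≤ 1 / (5 * C) by positivity)]
      exact Real.sqrt_le_sqrt hs25
    have hCw : C * Real.sqrt s ≤ 1 / 5 := by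
      have h1 := mul_le_mul_of_nonneg_left hw (show (0 : ℝ) ≤ C by linarith)
      have h2 : C * (1 / (5 * C)) = 1 / 5 := by
        field_simp
      rwa [h2] at h1
    have hs12 : s ≤ 1 / 2 := by
      have h1 : 1 / (5 * C) ≤ 1 / 5 := by
        apply div_le_div_of_nonneg_left (by norm_num) (by norm_num) (by linarith)
      have h2 : 0 < 1 / (5 * C) := by positivity
      nlinarith
    have halg := qin_alg q x s (Real.sqrt s) C hq hx0.le hx1 hsx hCw
    have hηs : 5 * q * τ * s = h := by rw [hs]; field_simp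
    have hηt : s * (5 * q * τ) ^ 2 / (4 * t) = 5 / 4 * x := by
      rw [← hτsq, hs, hx]; field_simp
    -- the gain
    have hgain : 57 / 10 * x ≤ 12 * q * (τ' - τ) :=
      qin_gain q h t τ τ' x hqpos hh hτpos hτ'pos hτsq hτ'sq (by linarith) hx
    have hg1 : 1 ≤ G (t + h) := hGpos _ htts
    have hGt : G (t + h) * (1 + 57 / 10 * x) ≤ G t := by
      have h1 : G t = G (t + h) * Real.exp (12 * q * (τ' - τ)) := by
        simp only [hG]
        rw [mul_assoc, mul_assoc, mul_assoc, ← Real.exp_add]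
        rw [← mul_assoc, ← mul_assoc]
        congr 2
        rw [← hτ, ← hτ']
        ring
      rw [h1]
      apply mul_le_mul_of_nonneg_left _ (by linarith)
      have := Real.add_one_le_exp (12 * q * (τ' - τ))
      linarith
    refine hST t s (5 * q * τ) (G (t + h)) (G t) ht (by linarith) hspos hs12 (by positivity) ?_
      (by linarith) (le_trans zero_le_one (hGpos t (by linarith))) ?_ ?_
    · rw [hηt]; linarith
    · rw [hηs]; exact hP
    · rw [hηt, ← hqQ]
      have h1 : C * s * Real.sqrt s ≤ G (t + h) * (C * s * Real.sqrt s) := by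
        have : 0 ≤ C * s * Real.sqrt s := by positivity
        nlinarith
      have h2 : G (t + h) * (((1 + 5 / 4 * x) ^ 2 + s * (8 * q ^ 2 + 3) * (1 + C * Real.sqrt s)) +
          C * s * Real.sqrt s) ≤ G (t + h) * ((1 - s) * (1 + 57 / 10 * x)) :=
        mul_le_mul_of_nonneg_left halg (by linarith)
      have h3 : (1 - s) * (G (t + h) * (1 + 57 / 10 * x)) ≤ (1 - s) * G t :=
        mul_le_mul_of_nonneg_left hGt (by linarith)
      calc G (t + h) * ((1 + 5 / 4 * x) ^ 2 + s * (8 * q ^ 2 + 3) * (1 + C * Real.sqrt s)) +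
          C * s * Real.sqrt s
          ≤ G (t + h) * ((1 + 5 / 4 * x) ^ 2 + s * (8 * q ^ 2 + 3) * (1 + C * Real.sqrt s)) +
            G (t + h) * (C * s * Real.sqrt s) := by linarith
        _ = G (t + h) * (((1 + 5 / 4 * x) ^ 2 +
            s * (8 * q ^ 2 + 3) * (1 + C * Real.sqrt s)) + C * s * Real.sqrt s) := by ring
        _ ≤ G (t + h) * ((1 - s) * (1 + 57 / 10 * x)) := h2
        _ = (1 - s) * (G (t + h) * (1 + 57 / 10 * x)) := by ring
        _ ≤ (1 - s) * G t := h3
  -- the iteration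
  obtain ⟨N, hN⟩ := exists_nat_gt ((ts - t0) / h0)
  have hNpos : (0 : ℝ) < N := lt_trans (div_pos (by linarith) hh0pos) hN
  set h : ℝ := (ts - t0) / N with hh
  have hhpos : 0 < h := div_pos (by linarith) hNpos
  have hhh0 : h ≤ h0 := by
    rw [hh, div_le_iff₀ hNpos]
    rw [div_lt_iff₀ hh0pos] at hN
    linarith
  have hiter : ∀ j : ℕ, j ≤ N → P (ts - j * h) (G (ts - j * h)) := by
    intro j
    induction j with
    | zero => intro _; simpa using hPts
    | succ j ih =>
      intro hj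
      have h1 := ih (by omega)
      have hjN : ((j : ℝ) + 1) ≤ N := by exact_mod_cast hj
      have h2 : ((j : ℝ) + 1) * h ≤ ts - t0 := by
        have : (N : ℝ) * h = ts - t0 := by rw [hh]; field_simp
        nlinarith
      have hj0 : (0 : ℝ) ≤ (j : ℝ) * h := by positivity
      apply hstep h (ts - ((j + 1 : ℕ) : ℝ) * h) hhpos hhh0
      · push_cast; linarith
      · push_cast; linarith
      · have h3 : ts - ((j + 1 : ℕ) : ℝ) * h + h = ts - j * h := by push_cast; ring
        rw [h3]; exact h1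
  have hfin := hiter N le_rfl
  have hNh : ts - N * h = t0 := by
    have : (N : ℝ) * h = ts - t0 := by rw [hh]; field_simp
    rw [this]; ring
  rw [hNh] at hfin
  refine hmono _ _ _ hfin ?_
  simp only [hG]
  have h1 : 12 * q * (Real.sqrt ts - Real.sqrt t0) ≤ 3 / 2 := by
    have h2 : 12 * q * Real.sqrt ts = 3 / 2 := by
      rw [hsts]; field_simp; norm_num
    have h3 : 0 ≤ 12 * q * Real.sqrt t0 := by positivity
    linarith
  have h2 : Real.exp (3 / 2) ≤ 25 / 4 := by
    have h3 : Real.exp (3 / 2) ^ 2 = Real.exp 1 ^ 3 := by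
      rw [← Real.exp_nat_mul, ← Real.exp_nat_mul]; norm_num
    have h4 : Real.exp 1 ^ 3 ≤ 3 ^ 3 := by
      apply pow_le_pow_left₀ (Real.exp_pos _).le
      have := Real.exp_one_lt_d9
      linarith
    have h5 := Real.exp_pos (3 / 2 : ℝ)
    nlinarith
  have h3 : Real.exp (12 * q * (Real.sqrt ts - Real.sqrt t0)) ≤ 25 / 4 :=
    le_trans (Real.exp_le_exp.mpr h1) h2
  have h4 := mul_le_mul_of_nonneg_left h3 (show (0 : ℝ) ≤ 32 * q by positivity)
  linarith

end Pool.Agent.H75.KA
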